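import Mathlib
import Pool.Agent.Lib.MP_8363a4_al.Defs
import Pool.Agent.Lib.MP_8363a4_al.LinAlg
import Pool.Agent.Lib.MP_8363a4_al.Val

namespace Pool.Agent.Variants.MP_8363a4_al.LowerBound

open Pool.Agent.Lib.MP_8363a4_al

theorem result (p m n : ℕ) (hp : p.Prime) (hn : 2 ≤ n) (hnm : n ≤ m) :
    ∃ ξ : KMmod (RatFun m) n p, (∃ r : ℕ, IsSumOfSymbols ξ r) ∧
      ∀ r : ℕ, IsSumOfSymbols ξ r →
        (m - 1).choose (n - 1) + (m - 1) ≤ n * r ∧ (m = n + 2 → m - 1 ≤ r) := by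
  have : Fact p.Prime := ⟨hp⟩
  obtain ⟨k, rfl⟩ : ∃ k, n = k + 1 := ⟨n - 1, by omega⟩
  obtain ⟨d, rfl⟩ : ∃ d, m = d + 1 := ⟨m - 1, by omega⟩
  obtain ⟨ξ, h1, h2⟩ := main p d k
  refine ⟨ξ, h1, fun r hr => ?_⟩
  obtain ⟨y, hR, hS⟩ := h2 r hr
  refine ⟨by simpa using boundA (by omega) (by omega) y hR hS, fun hm => ?_⟩
  obtain rfl : d = k + 2 := by omega
  simpa using boundB (by omega) y hR hS

end Pool.Agent.Variants.MP_8363a4_al.LowerBound
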